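import Pool.Agent.Y305.BC.Stm

/-! BC-POT: the holomorphic function `q` vanishing on the Cantor set. -/

set_option autoImplicit false

open MeasureTheory Metric Set Filter Topology
open scoped ContDiff ENNReal ComplexConjugate

namespace Pool.Agent.Y764.BC

open Pool.Agent.Y305.BC

theorem norm_ex (x : ℝ) : ‖ex x‖ = 1 := by
  have h : ex x = Complex.exp (((2 * Real.pi * x : ℝ) : ℂ) * Complex.I) := by
    unfold ex; push_cast; rfl
  rw [h, Complex.norm_exp_ofReal_mul_I]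

theorem ex_lip (x y : ℝ) : ‖ex x - ex y‖ ≤ 7 * |x - y| := by
  have h : ex x - ex y = ex y * (Complex.exp (Complex.I * ((2 * Real.pi * (x - y) : ℝ) : ℂ)) - 1) := by
    unfold ex
    rw [mul_sub, ← Complex.exp_add, mul_one]
    congr 2
    push_cast
    ring
  rw [h, norm_mul, norm_ex, one_mul]
  refine (Real.norm_exp_I_mul_ofReal_sub_one_le).trans ?_
  rw [Real.norm_eq_abs, abs_mul, abs_of_pos (by positivity : 0 < 2 * Real.pi)]
  have : 2 * Real.pi ≤ 7 := by linarith [Real.pi_lt_d2]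
  gcongr

theorem ll_pos (n : ℕ) : 0 < ll n := by unfold ll; positivity

theorem ll_anti : Antitone ll := by
  refine antitone_nat_of_succ_le fun n => ?_
  unfold ll
  have h1 : ((n : ℝ) + 1) ^ 3 ≤ (((n + 1 : ℕ) : ℝ) + 1) ^ 3 := by
    push_cast; gcongr; linarith
  have h2 : (1 / 4 : ℝ) * (1 / 2) ^ (n + 1) ≤ (1 / 4) * (1 / 2) ^ n := by
    rw [pow_succ]
    have : (0 : ℝ) < (1 / 2) ^ n := by positivity
    linarith
  exact div_le_div₀ (by positivity) h2 (by positivity) h1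

/-- the shifts of the poles -/
noncomputable def ep (n : ℕ) : ℝ := 16 * ll n

theorem ep_pos (n : ℕ) : 0 < ep n := by unfold ep; have := ll_pos n; positivity

/-- the denominators -/
noncomputable def uu (n : ℕ) (A : Finset ℕ) (z : ℂ) : ℂ := 1 + (ep n : ℂ) - z * conj (ex (xx A))

/-- level sums -/
noncomputable def TT (n : ℕ) (z : ℂ) : ℂ :=
  (((n + 1) * ep n : ℝ) : ℂ) * ∑ A ∈ (Finset.range n).powerset, (uu n A z)⁻¹

/-- the exponent -/
noncomputable def SS (z : ℂ) : ℂ := ∑' n, TT n z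

/-- the domain of `q` -/
def RR : Set ℂ := {w | ∃ z, ‖z‖ ≤ 1 ∧ z ∉ KC ∧ ‖w - z‖ < dk z / 2}

open Classical in
/-- the function `q` -/
noncomputable def qq (w : ℂ) : ℂ := if w ∈ RR then Complex.exp (-SS w) else 0

/-- the constants of the level sums -/
noncomputable def bb (n : ℕ) : ℝ := 8 / ((n : ℝ) + 1) ^ 2

theorem bb_pos (n : ℕ) : 0 < bb n := by unfold bb; positivity

theorem bb_summable : Summable bb := by
  have h1 : Summable fun n : ℕ => 1 / ((n : ℝ) + 1) ^ 2 := by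
    have := (summable_nat_add_iff 1).2 (Real.summable_one_div_nat_pow.2 (by norm_num : 1 < 2))
    refine this.congr fun n => ?_
    push_cast; rfl
  refine (h1.mul_left 8).congr fun n => ?_
  unfold bb; ring

theorem bb_eq (n : ℕ) : ((n : ℝ) + 1) * ep n * (2 ^ n * 2) = bb n := by
  unfold ep ll bb
  have h1 : ((1:ℝ) / 2) ^ n * 2 ^ n = 1 := by rw [← mul_pow]; norm_num
  have h2 : (0:ℝ) < (n : ℝ) + 1 := by positivity
  field_simp
  linear_combination (32 : ℝ) * h1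

section
variable (hK : IsCompact KK) (hx : ∀ A : Finset ℕ, xx A ∈ KK)
include hK hx

omit hK in
theorem exC (A : Finset ℕ) : ex (xx A) ∈ KC := ⟨_, hx A, rfl⟩

omit hx in
theorem KC_compact : IsCompact KC := by
  refine hK.image ?_
  unfold ex
  fun_prop

omit hK in
theorem KC_ne : KC.Nonempty := ⟨_, exC hx ∅⟩

omit hK hx in
theorem dk_nonneg (z : ℂ) : 0 ≤ dk z := infDist_nonneg

omit hK hx in
theorem dk_le {z k : ℂ} (hk : k ∈ KC) : dk z ≤ ‖z - k‖ := by
  rw [← dist_eq_norm]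
  exact infDist_le_dist_of_mem hk

theorem dk_exists (z : ℂ) : ∃ w : ℕ → Bool, dk z = ‖z - ex (cc w)‖ := by
  obtain ⟨k, hk, h⟩ := (KC_compact hK).exists_infDist_eq_dist (KC_ne hx) z
  obtain ⟨x, ⟨w, rfl⟩, rfl⟩ := hk
  exact ⟨w, by rw [dk, h, dist_eq_norm]⟩

theorem dk_pos {z : ℂ} (h : z ∉ KC) : 0 < dk z :=
  ((KC_compact hK).isClosed.notMem_iff_infDist_pos (KC_ne hx)).1 h

omit hK in
theorem dk_le_two {z : ℂ} (h : ‖z‖ ≤ 1) : dk z ≤ 2 := by
  have h1 := dk_le (z := z) (exC hx ∅)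
  have h2 := norm_sub_le z (ex (xx ∅))
  rw [norm_ex] at h2
  linarith

omit hK hx in
theorem norm_conj_mul (z e : ℂ) (he : ‖e‖ = 1) : ‖1 - z * conj e‖ = ‖z - e‖ := by
  have h1 : conj e * e = 1 := by
    rw [mul_comm, Complex.mul_conj, Complex.normSq_eq_norm_sq, he]; simp
  have h2 : (1 - z * conj e) * e = -(z - e) := by
    linear_combination (-z) * h1
  calc ‖1 - z * conj e‖ = ‖(1 - z * conj e) * e‖ := by rw [norm_mul, he, mul_one]
    _ = ‖z - e‖ := by rw [h2, norm_neg]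

omit hK hx in
theorem re_le (z e : ℂ) (hz : ‖z‖ ≤ 1) (he : ‖e‖ = 1) : (z * conj e).re ≤ 1 := by
  refine (Complex.re_le_norm _).trans ?_
  rw [norm_mul, Complex.norm_conj, he, mul_one]
  exact hz

omit hK hx in
theorem uu_re (n : ℕ) (A : Finset ℕ) {z : ℂ} (hz : ‖z‖ ≤ 1) : ep n ≤ (uu n A z).re := by
  have h1 := re_le z (ex (xx A)) hz (norm_ex _)
  unfold uu
  rw [Complex.sub_re, Complex.add_re, Complex.one_re, Complex.ofReal_re]
  linarith

omit hK hx in
theorem uu_ge' (n : ℕ) (A : Finset ℕ) {z : ℂ} (hz : ‖z‖ ≤ 1) :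
    ‖z - ex (xx A)‖ ≤ ‖uu n A z‖ := by
  rw [← norm_conj_mul z _ (norm_ex (xx A))]
  have h1 := re_le z (ex (xx A)) hz (norm_ex _)
  have h2 := ep_pos n
  set v := 1 - z * conj (ex (xx A)) with hv
  have h3 : uu n A z = v + (ep n : ℂ) := by rw [hv]; unfold uu; ring
  have h4 : 0 ≤ v.re := by rw [hv, Complex.sub_re, Complex.one_re]; linarith
  refine le_of_sq_le_sq ?_ (norm_nonneg _)
  rw [h3, ← Complex.normSq_eq_norm_sq, ← Complex.normSq_eq_norm_sq, Complex.normSq_apply,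
    Complex.normSq_apply, Complex.add_re, Complex.add_im, Complex.ofReal_re, Complex.ofReal_im]
  nlinarith

omit hK in
theorem uu_ge (n : ℕ) (A : Finset ℕ) {z : ℂ} (hz : ‖z‖ ≤ 1) : dk z ≤ ‖uu n A z‖ :=
  (dk_le (exC hx A)).trans (uu_ge' n A hz)

omit hK hx in
theorem uu_sub (n : ℕ) (A : Finset ℕ) (w z : ℂ) : ‖uu n A w - uu n A z‖ = ‖w - z‖ := by
  have h : uu n A w - uu n A z = -((w - z) * conj (ex (xx A))) := by unfold uu; ring
  rw [h, norm_neg, norm_mul, Complex.norm_conj, norm_ex, mul_one]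

omit hK in
theorem uu_ge2 (n : ℕ) (A : Finset ℕ) {z w : ℂ} (hz : ‖z‖ ≤ 1) (hw : ‖w - z‖ < dk z / 2) :
    dk z / 2 ≤ ‖uu n A w‖ := by
  have h1 := uu_ge hx n A hz
  have h2 := norm_sub_norm_le (uu n A z) (uu n A w)
  rw [norm_sub_rev, uu_sub] at h2
  linarith

omit hK in
theorem TT_le (n : ℕ) {z w : ℂ} (hd : 0 < dk z) (hz : ‖z‖ ≤ 1) (hw : ‖w - z‖ < dk z / 2) :
    ‖TT n w‖ ≤ bb n * (dk z)⁻¹ := by
  unfold TT
  rw [norm_mul, Complex.norm_real, Real.norm_eq_abs, abs_of_pos (by have := ep_pos n; positivity)]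
  have h1 : ‖∑ A ∈ (Finset.range n).powerset, (uu n A w)⁻¹‖ ≤ 2 ^ n * (2 * (dk z)⁻¹) := by
    refine (norm_sum_le _ _).trans ?_
    refine (Finset.sum_le_card_nsmul _ _ (2 * (dk z)⁻¹) fun A _ => ?_).trans (le_of_eq ?_)
    · rw [norm_inv]
      have h2 := uu_ge2 hx n A hz hw
      calc ‖uu n A w‖⁻¹ ≤ (dk z / 2)⁻¹ := inv_anti₀ (by positivity) h2
        _ = 2 * (dk z)⁻¹ := by rw [inv_div]; ring
    · rw [Finset.card_powerset, Finset.card_range, nsmul_eq_mul]
      push_cast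
      ring
  have h0 := ep_pos n
  calc ((n : ℝ) + 1) * ep n * ‖∑ A ∈ (Finset.range n).powerset, (uu n A w)⁻¹‖ ≤
        ((n : ℝ) + 1) * ep n * (2 ^ n * (2 * (dk z)⁻¹)) := by gcongr
    _ = (((n : ℝ) + 1) * ep n * (2 ^ n * 2)) * (dk z)⁻¹ := by ring
    _ = bb n * (dk z)⁻¹ := by rw [bb_eq]

omit hK in
theorem TT_sub_le (n : ℕ) {z w : ℂ} (hd : 0 < dk z) (hz : ‖z‖ ≤ 1) (hw : ‖w - z‖ < dk z / 2) :
    ‖TT n w - TT n z‖ ≤ bb n * (‖w - z‖ / dk z ^ 2) := by
  unfold TT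
  rw [← mul_sub, ← Finset.sum_sub_distrib, norm_mul, Complex.norm_real, Real.norm_eq_abs,
    abs_of_pos (by have := ep_pos n; positivity)]
  have h1 : ‖∑ A ∈ (Finset.range n).powerset, ((uu n A w)⁻¹ - (uu n A z)⁻¹)‖ ≤
      2 ^ n * (2 * (‖w - z‖ / dk z ^ 2)) := by
    refine (norm_sum_le _ _).trans ?_
    refine (Finset.sum_le_card_nsmul _ _ (2 * (‖w - z‖ / dk z ^ 2)) fun A _ => ?_).trans
      (le_of_eq ?_)
    · have h2 := uu_ge2 hx n A hz hw
      have h3 := uu_ge hx n A hz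
      have h4 : uu n A w ≠ 0 := norm_pos_iff.1 (by linarith)
      have h5 : uu n A z ≠ 0 := norm_pos_iff.1 (by linarith)
      rw [inv_sub_inv h4 h5, norm_div, norm_mul, norm_sub_rev, uu_sub]
      calc ‖w - z‖ / (‖uu n A w‖ * ‖uu n A z‖) ≤ ‖w - z‖ / (dk z / 2 * dk z) := by gcongr
        _ = 2 * (‖w - z‖ / dk z ^ 2) := by field_simp
    · rw [Finset.card_powerset, Finset.card_range, nsmul_eq_mul]
      push_cast
      ring
  have h0 := ep_pos n
  calc ((n : ℝ) + 1) * ep n * ‖∑ A ∈ (Finset.range n).powerset, ((uu n A w)⁻¹ - (uu n A z)⁻¹)‖ ≤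
        ((n : ℝ) + 1) * ep n * (2 ^ n * (2 * (‖w - z‖ / dk z ^ 2))) := by gcongr
    _ = (((n : ℝ) + 1) * ep n * (2 ^ n * 2)) * (‖w - z‖ / dk z ^ 2) := by ring
    _ = bb n * (‖w - z‖ / dk z ^ 2) := by rw [bb_eq]

omit hK in
theorem TT_summable {z w : ℂ} (hd : 0 < dk z) (hz : ‖z‖ ≤ 1) (hw : ‖w - z‖ < dk z / 2) :
    Summable fun n => TT n w :=
  Summable.of_norm_bounded (g := fun n => bb n * (dk z)⁻¹) (bb_summable.mul_right _)
    fun n => TT_le hx n hd hz hw

omit hK hx in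
theorem RR_open : IsOpen RR := by
  have h : RR = ⋃ z ∈ {z : ℂ | ‖z‖ ≤ 1 ∧ z ∉ KC}, ball z (dk z / 2) := by
    ext w
    simp only [RR, mem_ofPred_eq, mem_iUnion, mem_ball, dist_eq_norm, exists_prop, and_assoc]
  rw [h]
  exact isOpen_biUnion fun z _ => isOpen_ball

theorem SS_diff {w : ℂ} (h : w ∈ RR) : DifferentiableAt ℂ SS w := by
  obtain ⟨z, hz, hk, hw⟩ := h
  have hd := dk_pos hK hx hk
  have hU : IsOpen (ball z (dk z / 2)) := isOpen_ball
  have hm : w ∈ ball z (dk z / 2) := by rwa [mem_ball, dist_eq_norm]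
  have hdd : DifferentiableOn ℂ SS (ball z (dk z / 2)) := by
    refine Complex.differentiableOn_tsum_of_summable_norm
      (u := fun n => bb n * (dk z)⁻¹) (bb_summable.mul_right _) (fun n v hv => ?_) hU
      fun n v hv => ?_
    · rw [mem_ball, dist_eq_norm] at hv
      refine DifferentiableAt.differentiableWithinAt ?_
      unfold TT
      refine DifferentiableAt.const_mul ?_ _
      refine DifferentiableAt.fun_sum fun A _ => ?_
      have h2 := uu_ge2 hx n A hz hv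
      have h4 : uu n A v ≠ 0 := norm_pos_iff.1 (by linarith)
      refine DifferentiableAt.fun_inv ?_ h4
      unfold uu
      fun_prop
    · rw [mem_ball, dist_eq_norm] at hv
      exact TT_le hx n hd hz hv
  exact (hdd w hm).differentiableAt (hU.mem_nhds hm)

omit hK hx in
theorem inv_re_ge (n : ℕ) (A : Finset ℕ) {z : ℂ} (hz : ‖z‖ ≤ 1) : 0 ≤ ((uu n A z)⁻¹).re := by
  rw [Complex.inv_re]
  exact div_nonneg ((ep_pos n).le.trans (uu_re n A hz)) (Complex.normSq_nonneg _)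

omit hK hx in
theorem TT_re (n : ℕ) (z : ℂ) : (TT n z).re =
    ((n : ℝ) + 1) * ep n * ∑ A ∈ (Finset.range n).powerset, ((uu n A z)⁻¹).re := by
  unfold TT
  rw [Complex.re_ofReal_mul, Complex.re_sum]

omit hK hx in
theorem TT_re_nonneg (n : ℕ) {z : ℂ} (hz : ‖z‖ ≤ 1) : 0 ≤ (TT n z).re := by
  rw [TT_re]
  have := ep_pos n
  exact mul_nonneg (by positivity) (Finset.sum_nonneg fun A _ => inv_re_ge n A hz)

theorem TT_re_ge (hc : ∀ (w : ℕ → Bool) (n : ℕ),
      xx ((Finset.range n).filter fun k => w k = true) ≤ cc w ∧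
      cc w ≤ xx ((Finset.range n).filter fun k => w k = true) + ll n)
    (n : ℕ) {z : ℂ} (hz : ‖z‖ ≤ 1) (hd : dk z ≤ 7 * ll n) :
    ((n : ℝ) + 1) / 4 ≤ (TT n z).re := by
  obtain ⟨w, hw⟩ := dk_exists hK hx z
  set A := (Finset.range n).filter fun k => w k = true with hA
  have hAm : A ∈ (Finset.range n).powerset := Finset.mem_powerset.2 (Finset.filter_subset _ _)
  have hp := ll_pos n
  have he := ep_pos n
  have h1 : ‖z - ex (xx A)‖ ≤ ep n := by
    have h2 : ‖z - ex (xx A)‖ ≤ ‖z - ex (cc w)‖ + ‖ex (cc w) - ex (xx A)‖ := norm_sub_le_norm_sub_add_norm_sub _ _ _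
    have h3 := ex_lip (cc w) (xx A)
    have h4 : |cc w - xx A| ≤ ll n := by
      have := hc w n
      rw [← hA] at this
      rw [abs_le]
      constructor <;> linarith
    rw [← hw] at h2
    unfold ep
    linarith
  have h2 : ‖uu n A z‖ ≤ 2 * ep n := by
    have h3 : uu n A z = (1 - z * conj (ex (xx A))) + (ep n : ℂ) := by unfold uu; ring
    rw [h3]
    refine (norm_add_le _ _).trans ?_
    rw [norm_conj_mul _ _ (norm_ex _), Complex.norm_real, Real.norm_eq_abs, abs_of_pos he]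
    linarith
  have h3 := uu_re n A hz
  have h4 : 0 < ‖uu n A z‖ := by
    have := Complex.re_le_norm (uu n A z)
    linarith
  have h5 : 1 / (4 * ep n) ≤ ((uu n A z)⁻¹).re := by
    rw [Complex.inv_re, Complex.normSq_eq_norm_sq]
    calc 1 / (4 * ep n) = ep n / (2 * ep n) ^ 2 := by field_simp; norm_num
      _ ≤ (uu n A z).re / ‖uu n A z‖ ^ 2 :=
        div_le_div₀ (he.le.trans h3) h3 (by positivity) (by gcongr)
  rw [TT_re]
  have h6 : ((uu n A z)⁻¹).re ≤ ∑ A ∈ (Finset.range n).powerset, ((uu n A z)⁻¹).re :=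
    Finset.single_le_sum (f := fun A => ((uu n A z)⁻¹).re) (fun B _ => inv_re_ge n B hz) hAm
  calc ((n : ℝ) + 1) / 4 = ((n : ℝ) + 1) * ep n * (1 / (4 * ep n)) := by field_simp
    _ ≤ _ := by
      refine mul_le_mul_of_nonneg_left (h5.trans h6) ?_
      positivity

theorem SS_re {z : ℂ} (hz : ‖z‖ ≤ 1) (hk : z ∉ KC) :
    HasSum (fun n => (TT n z).re) (SS z).re := by
  have hd := dk_pos hK hx hk
  exact Complex.hasSum_re (TT_summable hx hd hz (by rw [sub_self, norm_zero]; positivity)).hasSum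

theorem SS_re_nonneg {z : ℂ} (hz : ‖z‖ ≤ 1) (hk : z ∉ KC) : 0 ≤ (SS z).re :=
  (SS_re hK hx hz hk).nonneg fun n => TT_re_nonneg n hz

omit hK hx in
theorem sum_lin (N : ℕ) : ∑ n ∈ Finset.range (N + 1), ((n : ℝ) + 1) / 4 =
    ((N : ℝ) + 1) * (N + 2) / 8 := by
  induction N with
  | zero => norm_num
  | succ N ih => rw [Finset.sum_range_succ, ih]; push_cast; ring

theorem SS_re_ge (hc : ∀ (w : ℕ → Bool) (n : ℕ),
      xx ((Finset.range n).filter fun k => w k = true) ≤ cc w ∧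
      cc w ≤ xx ((Finset.range n).filter fun k => w k = true) + ll n)
    (N : ℕ) {z : ℂ} (hz : ‖z‖ ≤ 1) (hk : z ∉ KC) (hd : dk z ≤ 7 * ll N) :
    ((N : ℝ) + 1) ^ 2 / 8 ≤ (SS z).re := by
  have h1 := sum_le_hasSum (Finset.range (N + 1)) (fun n _ => TT_re_nonneg n hz)
    (SS_re hK hx hz hk)
  have h2 : ∑ n ∈ Finset.range (N + 1), ((n : ℝ) + 1) / 4 ≤
      ∑ n ∈ Finset.range (N + 1), (TT n z).re := by
    refine Finset.sum_le_sum fun n hn => TT_re_ge hK hx hc n hz (hd.trans ?_)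
    have := ll_anti (Nat.lt_succ_iff.1 (Finset.mem_range.1 hn))
    linarith
  rw [sum_lin] at h2
  have h3 : ((N : ℝ) + 1) ^ 2 / 8 ≤ ((N : ℝ) + 1) * (N + 2) / 8 := by
    have : (0:ℝ) ≤ N := Nat.cast_nonneg N
    nlinarith
  linarith

omit hK hx in
theorem exp_le_ll (k : ℕ) : Real.exp (-(4 * k)) ≤ 7 * ll k := by
  have h1 : Real.exp (-(4 * (k : ℝ))) = (Real.exp k)⁻¹ * ((Real.exp k) ^ 3)⁻¹ := by
    rw [← Real.exp_nat_mul, ← Real.exp_neg, ← Real.exp_neg, ← Real.exp_add]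
    congr 1
    push_cast
    ring
  have h2 : (2:ℝ) ^ k ≤ Real.exp k := by
    have h3 : (2:ℝ) ≤ Real.exp 1 := by
      have := Real.add_one_le_exp 1
      linarith
    calc (2:ℝ) ^ k ≤ (Real.exp 1) ^ k := by gcongr
      _ = Real.exp k := by rw [← Real.exp_nat_mul, mul_one]
  have h3 : (k : ℝ) + 1 ≤ Real.exp k := Real.add_one_le_exp _
  rw [h1]
  unfold ll
  have h4 : (Real.exp k)⁻¹ ≤ (1 / 2) ^ k := by
    rw [one_div, inv_pow]
    exact inv_anti₀ (by positivity) h2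
  have h5 : ((Real.exp k) ^ 3)⁻¹ ≤ (((k : ℝ) + 1) ^ 3)⁻¹ :=
    inv_anti₀ (by positivity) (by gcongr)
  calc (Real.exp k)⁻¹ * ((Real.exp k) ^ 3)⁻¹ ≤ (1 / 2) ^ k * (((k : ℝ) + 1) ^ 3)⁻¹ := by gcongr
    _ ≤ 7 * (1 / 4 * (1 / 2) ^ k / ((k : ℝ) + 1) ^ 3) := by
      have e : 7 * (1 / 4 * (1 / 2) ^ k / ((k : ℝ) + 1) ^ 3) =
          7 / 4 * ((1 / 2) ^ k * (((k : ℝ) + 1) ^ 3)⁻¹) := by
        simp only [div_eq_mul_inv]; ring
      rw [e]
      have : (0:ℝ) < (1 / 2) ^ k * (((k : ℝ) + 1) ^ 3)⁻¹ := by positivity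
      linarith

theorem exp_bound (hc : ∀ (w : ℕ → Bool) (n : ℕ),
      xx ((Finset.range n).filter fun k => w k = true) ≤ cc w ∧
      cc w ≤ xx ((Finset.range n).filter fun k => w k = true) + ll n)
    (m : ℕ) {z : ℂ} (hz : ‖z‖ ≤ 1) (hk : z ∉ KC) :
    Real.exp (-(SS z).re) ≤ Real.exp (32 * m ^ 2) * dk z ^ m := by
  have hd := dk_pos hK hx hk
  have hC : 1 ≤ Real.exp (32 * (m : ℝ) ^ 2) := Real.one_le_exp (by positivity)
  by_cases h0 : 7 * ll 0 < dk z
  · have h1 : Real.exp (-(SS z).re) ≤ 1 :=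
      Real.exp_le_one_iff.2 (by linarith [SS_re_nonneg hK hx hz hk])
    have h2 : 1 ≤ dk z := by
      unfold ll at h0
      norm_num at h0
      linarith
    have h3 : 1 ≤ dk z ^ m := one_le_pow₀ h2
    nlinarith
  · have hex : ∃ k : ℕ, 7 * ll k < dk z := by
      obtain ⟨k, hk⟩ := exists_pow_lt_of_lt_one (show (0:ℝ) < dk z / 7 by positivity)
        (by norm_num : (1 / 2 : ℝ) < 1)
      refine ⟨k, ?_⟩
      have h1 : ll k ≤ (1 / 2) ^ k := by
        unfold ll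
        rw [div_le_iff₀ (by positivity)]
        have h2 : (1:ℝ) ≤ ((k : ℝ) + 1) ^ 3 := one_le_pow₀ (by linarith [Nat.cast_nonneg (α := ℝ) k])
        have h3 : (0:ℝ) < (1 / 2) ^ k := by positivity
        nlinarith
      linarith
    classical
    set K := Nat.find hex with hKd
    have h1 : 7 * ll K < dk z := Nat.find_spec hex
    have h2 : K ≠ 0 := by
      intro h
      rw [h] at h1
      exact h0 h1
    obtain ⟨N, hN⟩ := Nat.exists_eq_succ_of_ne_zero h2
    have h3 : dk z ≤ 7 * ll N := by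
      have := Nat.find_min hex (m := N) (by omega)
      exact not_lt.1 this
    have h4 := SS_re_ge hK hx hc N hz hk h3
    have h5 := exp_le_ll K
    have h6 : Real.exp (-(4 * (K : ℝ))) ≤ dk z := h5.trans h1.le
    have h7 : Real.exp (-(4 * (K : ℝ))) ^ m ≤ dk z ^ m := pow_le_pow_left₀ (Real.exp_pos _).le h6 m
    have h8 : Real.exp (-(SS z).re) ≤ Real.exp (32 * (m : ℝ) ^ 2) * Real.exp (-(4 * (K : ℝ))) ^ m := by
      rw [← Real.exp_nat_mul, ← Real.exp_add]
      refine Real.exp_le_exp.2 ?_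
      have h9 : (K : ℝ) = N + 1 := by rw [hN]; push_cast; ring
      rw [← h9] at h4
      nlinarith [sq_nonneg ((K : ℝ) - 16 * m)]
    exact h8.trans (mul_le_mul_of_nonneg_left h7 (Real.exp_pos _).le)

end

theorem pot : S_POT := by
  intro hK hx hc
  set C1 : ℝ := ∑' n, bb n with hC1
  have hC1p : 0 ≤ C1 := tsum_nonneg fun n => (bb_pos n).le
  set c : ℝ := 1 / (16 + C1) with hcd
  have hcp : 0 < c := by positivity
  have hc1 : c ≤ 1 / 16 := one_div_le_one_div_of_le (by norm_num) (by linarith)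
  have hc2 : c * C1 ≤ 1 := by
    rw [hcd, one_div, inv_mul_le_iff₀ (by positivity)]
    linarith
  have hnear : ∀ z, ‖z‖ ≤ 1 → z ∉ KC → ∀ w, ‖w - z‖ ≤ c * dk z ^ 2 → ‖w - z‖ < dk z / 2 := by
    intro z hz hk w hw
    have hd := dk_pos hK hx hk
    have h2 := dk_le_two hx hz
    have h3 : c * dk z ^ 2 ≤ 1 / 16 * dk z ^ 2 := by gcongr
    nlinarith
  have hRR : ∀ z, ‖z‖ ≤ 1 → z ∉ KC → ∀ w, ‖w - z‖ ≤ c * dk z ^ 2 → w ∈ RR :=
    fun z hz hk w hw => ⟨z, hz, hk, hnear z hz hk w hw⟩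
  refine ⟨qq, RR, c, hcp, RR_open, ?_, ?_, ?_, hRR, ?_⟩
  · intro w hw
    have h1 : DifferentiableAt ℂ (fun z => Complex.exp (-SS z)) w := (SS_diff hK hx hw).neg.cexp
    refine (h1.congr_of_eventuallyEq ?_).differentiableWithinAt
    filter_upwards [RR_open.mem_nhds hw] with v hv
    rw [qq, if_pos hv]
  · intro w hw
    rw [qq, if_pos hw]
    exact Complex.exp_ne_zero _
  · intro x hxK
    rw [qq, if_neg]
    rintro ⟨z, hz, hk, hw⟩
    have h1 : dk z ≤ ‖z - ex x‖ := dk_le ⟨x, hxK, rfl⟩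
    rw [norm_sub_rev] at h1
    have h2 := dk_nonneg z
    linarith
  · intro m
    refine ⟨Real.exp 1 * Real.exp (32 * m ^ 2), fun z hz hk w hw => ?_⟩
    have hd := dk_pos hK hx hk
    have hw2 := hnear z hz hk w hw
    have hb := exp_bound hK hx hc m hz hk
    rw [qq, if_pos (hRR z hz hk w hw), Complex.norm_exp, Complex.neg_re]
    have hs1 : Summable fun n => TT n w := TT_summable hx hd hz hw2
    have hs2 : Summable fun n => TT n z :=
      TT_summable hx hd hz (by rw [sub_self, norm_zero]; positivity)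
    have h1 : ‖SS w - SS z‖ ≤ 1 := by
      unfold SS
      rw [← hs1.tsum_sub hs2]
      have h3 : ∀ n, ‖TT n w - TT n z‖ ≤ bb n * c := by
        intro n
        refine (TT_sub_le hx n hd hz hw2).trans ?_
        have h4 : ‖w - z‖ / dk z ^ 2 ≤ c := by
          rw [div_le_iff₀ (by positivity)]
          exact hw
        exact mul_le_mul_of_nonneg_left h4 (bb_pos n).le
      refine (tsum_of_norm_bounded (bb_summable.mul_right c).hasSum h3).trans ?_
      rw [tsum_mul_right]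
      linarith
    have h2 : (SS z).re - (SS w).re ≤ 1 := by
      have := Complex.re_le_norm (SS z - SS w)
      rw [norm_sub_rev, Complex.sub_re] at this
      linarith
    calc Real.exp (-(SS w).re) ≤ Real.exp (1 + -(SS z).re) := Real.exp_le_exp.2 (by linarith)
      _ = Real.exp 1 * Real.exp (-(SS z).re) := Real.exp_add _ _
      _ ≤ Real.exp 1 * (Real.exp (32 * m ^ 2) * dk z ^ m) := by gcongr
      _ = Real.exp 1 * Real.exp (32 * m ^ 2) * dk z ^ m := by ring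

end Pool.Agent.Y764.BC
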